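import Pool.Agent.Results.MP_e8676d_al.Degrees

set_option autoImplicit false
set_option linter.style.haveILetI false

namespace Pool.Agent.Results.MP_f10b34_al.Contracting

open Filter Topology Pool.Agent.Results.MP_e8676d_al.Degrees

/-- the infinite word `v w` -/
def app {X : Type} (v : List X) (w : ℕ → X) : ℕ → X := v.foldr cons w

/-- `h` is the restriction of `g` to the finite word `v` -/
def Res {X : Type} (g : Equiv.Perm (ℕ → X)) (v : List X) (h : Equiv.Perm (ℕ → X)) : Prop :=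
  ∃ u : List X, u.length = v.length ∧ ∀ w, g (app v w) = app u (h w)

section automaton
variable {p q : ℕ} [Fact (1 < p)] [Fact (1 < q)]

lemma aP_pow (k : ℕ) (w : ℕ → X p q) : (aP ^ k) w = aa k w := by
  induction k with
  | zero => exact (aa_zero w).symm
  | succ k ih => rw [pow_succ', Equiv.Perm.mul_apply, ih]; exact aa_add 1 k w

lemma bP_pow (k : ℕ) (w : ℕ → X p q) : (bP ^ k) w = bb k w := by
  induction k with
  | zero => exact (bb_zero w).symm
  | succ k ih => rw [pow_succ', Equiv.Perm.mul_apply, ih]; exact bb_add 1 k w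

omit [Fact (1 < p)] [Fact (1 < q)] in
lemma rot_pq (x : X p q) : rot ((p * q : ℕ) : ℤ) x = x := by
  cases x <;> simp [rot]

lemma aP_ord : (aP : Equiv.Perm (ℕ → X p q)) ^ (p * q) = 1 := Equiv.ext fun w => by
  rw [aP_pow]
  funext n
  cases n
  · exact rot_pq _
  · rfl

lemma bP_ord : (bP : Equiv.Perm (ℕ → X p q)) ^ (p * q) = 1 := Equiv.ext fun w => by
  rw [bP_pow]
  funext n
  rcases n with _ | n
  · rfl
  · by_cases h : gate w n
    · exact (bb_pos _ h).trans (rot_pq _)
    · exact bb_neg _ h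

/-- products of powers of the generators -/
noncomputable def ev (l : List (Bool × ℕ)) : Equiv.Perm (ℕ → X p q) :=
  (l.map fun t => if t.1 then aP ^ t.2 else bP ^ t.2).prod

lemma ev_cons (t : Bool × ℕ) (l : List (Bool × ℕ)) : (ev (t :: l) : Equiv.Perm (ℕ → X p q)) =
    (if t.1 then aP ^ t.2 else bP ^ t.2) * ev l := by simp [ev]

lemma ev_step (l : List (Bool × ℕ)) (x : X p q) : ∃ l' : List (Bool × ℕ), ∃ y,
    l'.length ≤ l.countP (fun t => !t.1) ∧ ∀ w, ev l (cons x w) = cons y (ev l' w) := by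
  induction l with
  | nil => exact ⟨[], x, le_rfl, fun _ => rfl⟩
  | cons t l ih =>
    obtain ⟨l', y, h1, h2⟩ := ih
    obtain ⟨_ | _, k⟩ := t
    · have e : ∀ w, ev ((false, k) :: l) (cons x w) = bb k (cons y (ev l' w)) := fun w => by
        rw [ev_cons, Equiv.Perm.mul_apply, h2]; exact bP_pow _ _
      by_cases hz : z y
      · refine ⟨(false, k) :: l', y, by simpa using h1, fun w => ?_⟩
        rw [e, (bb_cons k y _).1 hz, ev_cons, Equiv.Perm.mul_apply, ← bP_pow]; rfl
      by_cases ho : o y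
      · refine ⟨(true, k) :: l', y, by simpa using h1, fun w => ?_⟩
        rw [e, (bb_cons k y _).2.1 ho, ev_cons, Equiv.Perm.mul_apply, ← aP_pow]; rfl
      · refine ⟨l', y, by simpa using h1.trans (Nat.le_succ _), fun w => ?_⟩
        rw [e, (bb_cons k y _).2.2 hz ho]
    · refine ⟨l', rot k y, by simpa using h1, fun w => ?_⟩
      rw [ev_cons, Equiv.Perm.mul_apply, h2]
      refine (aP_pow _ _).trans (funext fun n => ?_)
      cases n <;> rfl

lemma ev_b (l : List (Bool × ℕ)) (h : ∀ t ∈ l, (!t.1) = true) :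
    ∃ k, (ev l : Equiv.Perm (ℕ → X p q)) = ev [(false, k)] := by
  induction l with
  | nil => exact ⟨0, by simp [ev]⟩
  | cons t l ih =>
    obtain ⟨k, hk⟩ := ih fun t ht => h t (by simp [ht])
    have := h t (by simp)
    refine ⟨t.2 + k, ?_⟩
    rw [ev_cons, hk, if_neg (by simpa using this)]
    simp [ev, pow_add]

lemma ev_res (v : List (X p q)) : ∀ l : List (Bool × ℕ), l.length ≤ v.length + 1 →
    ∃ l' : List (Bool × ℕ), l'.length ≤ 1 ∧ Res (ev l) v (ev l') := by
  induction v with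
  | nil => exact fun l h => ⟨l, h, [], rfl, fun _ => rfl⟩
  | cons x v ih =>
    intro l hl
    have key : ∀ l : List (Bool × ℕ), l.countP (fun t => !t.1) ≤ v.length + 1 →
        ∃ l' : List (Bool × ℕ), l'.length ≤ 1 ∧ Res (ev l) (x :: v) (ev l') := fun l hl => by
      obtain ⟨l1, y, h1, h2⟩ := ev_step l x
      obtain ⟨l2, h3, u, h4, h5⟩ := ih l1 (h1.trans hl)
      exact ⟨l2, h3, y :: u, by simp [h4], fun w => (h2 _).trans (congrArg (cons y) (h5 w))⟩
    by_cases h : ∀ t ∈ l, (!t.1) = true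
    · obtain ⟨k, hk⟩ := ev_b (p := p) (q := q) l h
      rw [hk]
      exact key _ (by simp)
    · have h1 := List.countP_le_length (p := fun t : Bool × ℕ => !t.1) (l := l)
      have h2 := List.countP_eq_length.not.2 h
      rw [List.length_cons] at hl
      exact key l (by omega)

lemma contr : ∃ N : Finset (Equiv.Perm (ℕ → X p q)),
    (∀ h ∈ N, h ∈ Subgroup.closure (SS (p := p) (q := q) : Set (Equiv.Perm (ℕ → X p q)))) ∧
    ∀ g ∈ Subgroup.closure (SS (p := p) (q := q) : Set (Equiv.Perm (ℕ → X p q))), ∃ n,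
      ∀ v : List (X p q), n ≤ v.length → ∃ h ∈ N, Res g v h := by
  classical
  have hp : 1 < p := Fact.out
  have hq : 1 < q := Fact.out
  have hpq : 0 < p * q := by positivity
  refine ⟨(Finset.range (p * q)).image (aP ^ ·) ∪ (Finset.range (p * q)).image (bP ^ ·), ?_, ?_⟩
  · intro h hh
    simp only [Finset.mem_union, Finset.mem_image] at hh
    rcases hh with ⟨k, -, rfl⟩ | ⟨k, -, rfl⟩ <;>
      exact Subgroup.pow_mem _ (Subgroup.subset_closure (by simp [SS])) _
  intro g hg
  obtain ⟨l, rfl⟩ : ∃ l, g = ev l := by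
    induction hg using Subgroup.closure_induction'' with
    | one => exact ⟨[], rfl⟩
    | mem g hg =>
      simp only [SS, Finset.coe_insert, Finset.coe_singleton] at hg
      rcases hg with rfl | rfl
      · exact ⟨[(true, 1)], by simp [ev]⟩
      · exact ⟨[(false, 1)], by simp [ev]⟩
    | inv_mem g hg =>
      simp only [SS, Finset.coe_insert, Finset.coe_singleton] at hg
      obtain ⟨m, hm⟩ : ∃ m, p * q = m + 1 := ⟨p * q - 1, by omega⟩
      rcases hg with rfl | rfl
      · refine ⟨[(true, m)], inv_eq_of_mul_eq_one_right ?_⟩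
        rw [← aP_ord, hm, pow_succ']; simp [ev]
      · refine ⟨[(false, m)], inv_eq_of_mul_eq_one_right ?_⟩
        rw [← bP_ord, hm, pow_succ']; simp [ev]
    | mul g h _ _ hg hh =>
      obtain ⟨l, rfl⟩ := hg
      obtain ⟨l', rfl⟩ := hh
      exact ⟨l ++ l', by simp [ev]⟩
  refine ⟨l.length, fun v hv => ?_⟩
  obtain ⟨l', h1, h2⟩ := ev_res v l (by omega)
  refine ⟨_, ?_, h2⟩
  simp only [Finset.mem_union, Finset.mem_image, Finset.mem_range]
  rcases l' with _ | ⟨⟨_ | _, k⟩, _ | _⟩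
  · exact .inl ⟨0, hpq, by simp [ev]⟩
  · exact .inr ⟨k % (p * q), Nat.mod_lt _ hpq, by rw [← pow_eq_pow_mod _ bP_ord]; simp [ev]⟩
  · simp at h1
  · exact .inl ⟨k % (p * q), Nat.mod_lt _ hpq, by rw [← pow_eq_pow_mod _ aP_ord]; simp [ev]⟩
  · simp at h1

end automaton

lemma main (α : ℝ) (hα : 1 ≤ α) : ∃ (j : ℕ) (_ : Fact (1 < 2 ^ j)) (_ : Fact (1 < 2 ^ (j + 1)))
    (ξ : ℕ → X (2 ^ j) (2 ^ (j + 1))),
    Tendsto (fun n : ℕ => Real.log (ball SS ξ n).ncard / Real.log n) atTop (𝓝 α) := by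
  obtain ⟨j, hj1, hj2, hj3⟩ : ∃ j : ℕ, 1 ≤ j ∧ (j : ℝ) ≤ α ∧ α < j + 1 :=
    ⟨⌊α⌋₊, Nat.le_floor (by simpa using hα), Nat.floor_le (by linarith), Nat.lt_floor_add_one α⟩
  haveI : Fact (1 < 2 ^ j) := ⟨Nat.one_lt_two_pow (by omega)⟩
  haveI : Fact (1 < 2 ^ (j + 1)) := ⟨Nat.one_lt_two_pow (by omega)⟩
  let F : ℕ → ℕ := fun n => ⌊n * α⌋₊
  have F1 : ∀ n, (F n : ℝ) ≤ n * α := fun n => Nat.floor_le (by positivity)
  have F2 : ∀ n : ℕ, n * α < F n + 1 := fun n => Nat.lt_floor_add_one _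
  let ξ : ℕ → X (2 ^ j) (2 ^ (j + 1)) := fun i =>
    if F (i + 1) = F i + j then .inl 0 else .inr 0
  have hξ : ∀ i, z (ξ i) := fun i => by
    simp only [ξ]
    split_ifs <;> simp [z]
  have hW : ∀ n, (W ξ n).ncard = 2 ^ F n := fun n => by
    rw [W_card]
    induction n with
    | zero => simp [F]
    | succ n ih =>
      rw [Finset.prod_range_succ, ih]
      simp only [ξ]
      by_cases h : F (n + 1) = F n + j
      · simp [h, pow_add]
      · have h1 : F n + j < F (n + 1) + 1 := by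
          have := F1 n
          have := F2 (n + 1)
          have : (F n : ℝ) + j < F (n + 1) + 1 := by push_cast at *; linarith
          exact_mod_cast this
        have h2 : F (n + 1) < F n + j + 2 := by
          have := F2 n
          have := F1 (n + 1)
          have : (F (n + 1) : ℝ) < F n + j + 2 := by push_cast at *; linarith
          exact_mod_cast this
        simp only [if_neg h]
        rw [show F (n + 1) = F n + (j + 1) by omega, pow_add 2 (F n)]
        rfl
  have hWf : ∀ n, (W ξ n).Finite := fun n => Set.finite_of_ncard_pos (by rw [hW]; positivity)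
  have hlow : ∀ n, W ξ (n + 1) ⊆ ball SS ξ (2 ^ (n + j + 2)) := fun n =>
    (lower (Nat.pow_le_pow_right two_pos (Nat.le_succ j)) n ξ).trans (ball_mono _ _ (by
      rw [show n + j + 2 = j + 1 + (n + 1) by omega, pow_add 2 (j + 1)]
      exact Nat.mul_le_mul_left _ (Nat.sub_le _ _)))
  refine ⟨j, inferInstance, inferInstance, ξ, lim (K := (α * (j + 2) + 1) * Real.log 2) ?_⟩
  filter_upwards [eventually_ge_atTop (2 ^ (j + 2))] with r hr
  have hr0 : r ≠ 0 := by have := Nat.two_pow_pos (j + 2); omega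
  obtain ⟨n, hn⟩ := Nat.exists_eq_add_of_le' (Nat.le_log_of_pow_le one_lt_two hr)
  have h1 := Nat.pow_log_le_self 2 hr0
  have h2 := Nat.lt_pow_succ_log_self one_lt_two r
  rw [hn] at h1 h2
  have h3 := Set.ncard_le_ncard ((hlow n).trans (ball_mono _ _ h1)) (ball_fin _ _ _)
  have h4 := Set.ncard_le_ncard ((ball_mono _ _ h2.le).trans (upper ξ hξ _)) (hWf _)
  rw [hW] at h3 h4
  have l2 : 0 < Real.log 2 := Real.log_pos one_lt_two
  have lg : ∀ a b : ℕ, 2 ^ a ≤ b → a * Real.log 2 ≤ Real.log b := fun a b h => by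
    rw [← Real.log_pow]
    exact Real.log_le_log (by positivity) (by exact_mod_cast h)
  have lg' : ∀ a b : ℕ, b ≠ 0 → b ≤ 2 ^ a → Real.log b ≤ a * Real.log 2 := fun a b h0 h => by
    rw [← Real.log_pow]
    exact Real.log_le_log (by positivity) (by exact_mod_cast h)
  have k1 := lg _ _ h1
  have k2 := lg' _ _ hr0 h2.le
  have k3 := lg _ _ h3
  have k4 := lg' _ _ (by have := Nat.two_pow_pos (F (n + 1)); omega) h4
  have k5 := mul_le_mul_of_nonneg_right (F1 ((n + (j + 2)).succ + 1)) l2.le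
  have k6 := mul_le_mul_of_nonneg_right (F2 (n + 1)).le l2.le
  have k7 := mul_le_mul_of_nonneg_left k1 (show 0 ≤ α by linarith)
  have k8 := mul_le_mul_of_nonneg_left k2 (show 0 ≤ α by linarith)
  have k9 : 0 ≤ α * j * Real.log 2 := by positivity
  push_cast at *
  rw [abs_le]
  constructor <;> nlinarith

theorem result (α : ℝ) :
    (∃ (X : Type) (_ : Fintype X), 2 ≤ Fintype.card X ∧
      ∃ (L : Subgroup (Equiv.Perm (ℕ → X))) (S : Finset (Equiv.Perm (ℕ → X))) (ξ : ℕ → X),
        (∀ g ∈ L, ∀ x : X, ∃ h ∈ L, ∃ y : X, ∀ w, g (cons x w) = cons y (h w)) ∧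
        (∃ N : Finset (Equiv.Perm (ℕ → X)), (∀ h ∈ N, h ∈ L) ∧
          ∀ g ∈ L, ∃ n, ∀ v : List X, n ≤ v.length → ∃ h ∈ N, Res g v h) ∧
        Subgroup.closure (S : Set (Equiv.Perm (ℕ → X))) = L ∧
        limsup (fun n : ℕ => ((Real.log (ball S ξ n).ncard / Real.log n : ℝ) : EReal)) atTop = α) ↔
      α = 0 ∨ 1 ≤ α := by
  have fin : ∀ {Ω : Type} (S : Finset (Equiv.Perm Ω)) (ξ : Ω),
      {η | ∃ g ∈ Subgroup.closure (S : Set (Equiv.Perm Ω)), g ξ = η}.Finite →
      limsup (fun n : ℕ => ((Real.log (ball S ξ n).ncard / Real.log n : ℝ) : EReal)) atTop =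
        ((0 : ℝ) : EReal) := by
    intro Ω S ξ hf
    refine ((continuous_coe_real_ereal.tendsto _).comp (lim (α := 0) (K := Real.log
      {η | ∃ g ∈ Subgroup.closure (S : Set (Equiv.Perm Ω)), g ξ = η}.ncard)
      (.of_forall fun n => ?_))).limsup_eq
    have h1 : 0 < (ball S ξ n).ncard :=
      (Set.ncard_pos (ball_fin S ξ n)).2 ⟨ξ, [], Nat.zero_le _, by simp, rfl⟩
    rw [zero_mul, sub_zero, abs_of_nonneg (Real.log_natCast_nonneg _)]
    refine Real.log_le_log (by exact_mod_cast h1) (Nat.cast_le.2 (Set.ncard_le_ncard ?_ hf))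
    rintro _ ⟨l, -, h, rfl⟩
    exact ⟨_, Subgroup.list_prod_mem _ fun s hs => (h s hs).elim
      (fun h => Subgroup.subset_closure h)
      fun h => (Subgroup.inv_mem_iff _).1 (Subgroup.subset_closure h), rfl⟩
  constructor
  · rintro ⟨X, _, -, L, S, ξ, -, -, rfl, h2⟩
    by_cases hf : {η | ∃ g ∈ Subgroup.closure (S : Set (Equiv.Perm (ℕ → X))), g ξ = η}.Finite
    · exact .inl (EReal.coe_injective (h2.symm.trans (fin S ξ hf)))
    refine .inr (EReal.coe_le_coe_iff.1 (h2 ▸ le_limsup_of_frequently_le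
      (Eventually.frequently ?_)))
    filter_upwards [eventually_ge_atTop 2] with n hn
    have h3 : (1 : ℝ) < n := by exact_mod_cast hn
    rw [EReal.coe_le_coe_iff, one_le_div (Real.log_pos h3)]
    exact Real.log_le_log (by linarith) (by exact_mod_cast (Nat.le_succ n).trans (ball_card S ξ hf n))
  rintro (rfl | hα)
  · refine ⟨Bool, inferInstance, by simp, ⊥, ∅, fun _ => true, ?_, ⟨{1}, by simp, ?_⟩, by simp,
      fin _ _ (by simp)⟩
    · rintro g rfl x
      exact ⟨1, rfl, x, fun _ => rfl⟩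
    · rintro g rfl
      exact ⟨0, fun v _ => ⟨1, by simp, v, rfl, fun _ => rfl⟩⟩
  · obtain ⟨j, _, _, ξ, h⟩ := main α hα
    refine ⟨X (2 ^ j) (2 ^ (j + 1)), inferInstance, ?_, _, SS, ξ, selfsim, contr, rfl,
      ((continuous_coe_real_ereal.tendsto _).comp h).limsup_eq⟩
    have := Nat.two_pow_pos j
    have := Nat.two_pow_pos (j + 1)
    simp only [Fintype.card_sum, ZMod.card]
    omega

end Pool.Agent.Results.MP_f10b34_al.Contracting
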